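import Pool.Agent.W978.QO.Stm

set_option autoImplicit false

namespace Pool.Agent.W333.QO.LS

open Finset Pool.Agent.W978.QN Pool.Agent.W978.QO

theorem nm_nonneg (v : Fin 3 → ℤ) : 0 ≤ nm v :=
  (abs_nonneg (v 2)).trans (le_max_right _ _)

theorem two_pow_inj {k k' : ℕ} {x : ℤ} (h1 : x ≤ ((2 ^ k : ℕ) : ℤ)) (h2 : ((2 ^ k' : ℕ) : ℤ) < 2 * x) :
    k' ≤ k := by
  have h3 : ((2 ^ k' : ℕ) : ℤ) < ((2 ^ (k+1) : ℕ) : ℤ) := by
    rw [pow_succ]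
    push_cast at h1 h2 ⊢
    linarith
  have h4 : 2 ^ k' < 2 ^ (k+1) := by exact_mod_cast h3
  have := (Nat.pow_lt_pow_iff_right (by norm_num : 1 < 2)).mp h4
  omega

theorem main : S_LS := by
  classical
  intro a ⟨c, K, hc, hbox⟩
  set K' := max K 1 with hK'
  refine ⟨c / 4096, 2 ^ (18 * K' + 16), by positivity, ?_⟩
  intro B hB
  set n := Nat.log 2 B with hn
  have hBpos : B ≠ 0 := by
    have : 0 < 2 ^ (18 * K' + 16) := by positivity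
    omega
  have hn1 : 18 * K' + 16 ≤ n := Nat.le_log_of_pow_le (by norm_num) hB
  have hn2 : 2 ^ n ≤ B := Nat.pow_log_le_self 2 hBpos
  have hn3 : B < 2 ^ (n+1) := Nat.lt_pow_succ_log_self (by norm_num) B
  have hK1 : 1 ≤ K' := le_max_right _ _
  have hKK : K ≤ K' := le_max_left _ _
  set N := (n - K') / 8 with hN
  have hbound : ∀ k l : ℕ, k < N → l < N → K' * 2 ^ (4 * (k + l)) ≤ B := by
    intro k l hk hl
    have h1 : K' ≤ 2 ^ K' := Nat.lt_two_pow_self.le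
    calc K' * 2 ^ (4 * (k+l)) ≤ 2 ^ K' * 2 ^ (4 * (k+l)) := Nat.mul_le_mul_right _ h1
      _ = 2 ^ (K' + 4 * (k+l)) := by rw [pow_add]
      _ ≤ 2 ^ n := Nat.pow_le_pow_right (by norm_num) (by omega)
      _ ≤ B := hn2
  have hex : ∀ k l : ℕ, K' ≤ k → k < N → K' ≤ l → l < N → ∃ S : Finset (Fin 3 → Fin 3 → ℤ),
      (∀ P ∈ S, (∀ i, Rep (P i)) ∧ tf a P = 0 ∧ InU a P ∧
        nm (P 0) ≤ ((2 ^ k : ℕ) : ℤ) ∧ ((2 ^ k : ℕ) : ℤ) < 2 * nm (P 0) ∧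
        nm (P 1) ≤ ((2 ^ l : ℕ) : ℤ) ∧ ((2 ^ l : ℕ) : ℤ) < 2 * nm (P 1) ∧
        nm (P 2) ≤ ((B / 2 ^ (k + l) : ℕ) : ℤ)) ∧
      c / 4 * (B : ℝ) ^ 2 ≤ (S.card : ℝ) := by
    intro k l hk1 hk2 hl1 hl2
    have h1 : K ≤ 2 ^ k := hKK.trans (hk1.trans Nat.lt_two_pow_self.le)
    have h2 : K ≤ 2 ^ l := hKK.trans (hl1.trans Nat.lt_two_pow_self.le)
    have hb := hbound k l hk2 hl2
    have h3 : K * (2 ^ k * 2 ^ l) ^ 3 ≤ B / 2 ^ (k + l) := by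
      rw [Nat.le_div_iff_mul_le (by positivity)]
      calc K * (2 ^ k * 2 ^ l) ^ 3 * 2 ^ (k + l) = K * 2 ^ (4 * (k + l)) := by
            rw [← pow_add, mul_assoc, ← pow_mul, ← pow_add]
            congr 2
            ring
        _ ≤ K' * 2 ^ (4 * (k + l)) := Nat.mul_le_mul_right _ hKK
        _ ≤ B := hb
    obtain ⟨S, hS1, hS2⟩ := hbox (2 ^ k) (2 ^ l) (B / 2 ^ (k + l)) h1 h2 h3
    refine ⟨S, hS1, ?_⟩
    refine le_trans ?_ hS2
    have h4 : (B : ℝ) / 2 ≤ ((2 ^ k : ℕ) : ℝ) * ((2 ^ l : ℕ) : ℝ) * ((B / 2 ^ (k + l) : ℕ) : ℝ) := by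
      have h5 : B < 2 ^ (k + l) * (B / 2 ^ (k + l) + 1) := by
        rw [mul_comm]
        exact Nat.lt_mul_of_div_lt (Nat.lt_succ_self _) (by positivity)
      have h6 : 2 ^ (k + l) * 2 ≤ B := by
        refine le_trans ?_ hb
        have h7 : 1 ≤ 4 * (k + l) - (k + l) := by omega
        calc 2 ^ (k + l) * 2 = 2 ^ (k + l + 1) := by rw [pow_succ]
          _ ≤ 2 ^ (4 * (k + l)) := Nat.pow_le_pow_right (by norm_num) (by omega)
          _ ≤ K' * 2 ^ (4 * (k + l)) := Nat.le_mul_of_pos_left _ (by omega)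
      have h8 : B ≤ 2 * (2 ^ (k + l) * (B / 2 ^ (k + l))) := by
        rw [mul_add, mul_one] at h5
        omega
      have h9 : (B : ℝ) ≤ 2 * ((2 : ℝ) ^ (k + l) * ((B / 2 ^ (k + l) : ℕ) : ℝ)) := by
        exact_mod_cast h8
      have h10 : ((2 ^ k : ℕ) : ℝ) * ((2 ^ l : ℕ) : ℝ) = (2 : ℝ) ^ (k + l) := by
        push_cast
        rw [pow_add]
      rw [h10]
      linarith
    have h11 : c / 4 * (B : ℝ) ^ 2 = c * ((B : ℝ) / 2) ^ 2 := by ring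
    rw [h11]
    apply mul_le_mul_of_nonneg_left _ hc.le
    exact pow_le_pow_left₀ (by positivity) h4 2
  choose! Sf hSf1 hSf2 using fun k l : ℕ => (fun h : K' ≤ k ∧ k < N ∧ K' ≤ l ∧ l < N =>
    hex k l h.1 h.2.1 h.2.2.1 h.2.2.2)
  set T := Finset.Ico K' N ×ˢ Finset.Ico K' N with hT
  have hTmem : ∀ x ∈ T, K' ≤ x.1 ∧ x.1 < N ∧ K' ≤ x.2 ∧ x.2 < N := by
    intro x hx
    rw [hT, Finset.mem_product, Finset.mem_Ico, Finset.mem_Ico] at hx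
    exact ⟨hx.1.1, hx.1.2, hx.2.1, hx.2.2⟩
  refine ⟨T.biUnion (fun x => Sf x.1 x.2), ?_, ?_⟩
  · intro P hP
    obtain ⟨x, hx, hPx⟩ := Finset.mem_biUnion.mp hP
    obtain ⟨h1, h2, h3, h4, h5, h6, h7, h8⟩ := hSf1 x.1 x.2 (hTmem x hx) P hPx
    refine ⟨h1, h2, h3, ?_⟩
    rw [Fin.prod_univ_three]
    have n0 := nm_nonneg (P 0)
    have n1 := nm_nonneg (P 1)
    have n2 := nm_nonneg (P 2)
    have h9 : nm (P 0) * nm (P 1) ≤ ((2 ^ x.1 : ℕ) : ℤ) * ((2 ^ x.2 : ℕ) : ℤ) :=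
      mul_le_mul h4 h6 n1 (by positivity)
    have h10 : nm (P 0) * nm (P 1) * nm (P 2) ≤
        ((2 ^ x.1 : ℕ) : ℤ) * ((2 ^ x.2 : ℕ) : ℤ) * ((B / 2 ^ (x.1 + x.2) : ℕ) : ℤ) :=
      mul_le_mul h9 h8 n2 (by positivity)
    refine h10.trans ?_
    have h11 : 2 ^ x.1 * 2 ^ x.2 * (B / 2 ^ (x.1 + x.2)) ≤ B := by
      rw [← pow_add]
      exact Nat.mul_div_le B _
    exact_mod_cast h11
  · have hdisj : ∀ x ∈ T, ∀ y ∈ T, x ≠ y → Disjoint (Sf x.1 x.2) (Sf y.1 y.2) := by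
      intro x hx y hy hxy
      rw [Finset.disjoint_left]
      intro P hPx hPy
      obtain ⟨_, _, _, h4, h5, h6, h7, _⟩ := hSf1 x.1 x.2 (hTmem x hx) P hPx
      obtain ⟨_, _, _, g4, g5, g6, g7, _⟩ := hSf1 y.1 y.2 (hTmem y hy) P hPy
      apply hxy
      have e1 : x.1 = y.1 := le_antisymm (two_pow_inj g4 h5) (two_pow_inj h4 g5)
      have e2 : x.2 = y.2 := le_antisymm (two_pow_inj g6 h7) (two_pow_inj h6 g7)
      exact Prod.ext e1 e2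
    rw [Finset.card_biUnion hdisj]
    push_cast
    have h1 : ∑ x ∈ T, (c / 4 * (B : ℝ) ^ 2) ≤ ∑ x ∈ T, ((Sf x.1 x.2).card : ℝ) :=
      Finset.sum_le_sum fun x hx => hSf2 x.1 x.2 (hTmem x hx)
    refine le_trans ?_ h1
    rw [Finset.sum_const, nsmul_eq_mul, hT, Finset.card_product, Nat.card_Ico]
    push_cast
    have h2 : (n : ℝ) / 16 ≤ ((N - K' : ℕ) : ℝ) := by
      have : n ≤ 16 * (N - K') := by omega
      have h3 : (n : ℝ) ≤ 16 * ((N - K' : ℕ) : ℝ) := by exact_mod_cast this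
      linarith
    have h4 : Real.log B ≤ 2 * n := by
      have hB0 : (0:ℝ) < B := by exact_mod_cast Nat.pos_of_ne_zero hBpos
      have h5 : Real.log B ≤ Real.log ((2:ℝ) ^ (n+1)) :=
        Real.log_le_log hB0 (by exact_mod_cast hn3.le)
      rw [Real.log_pow] at h5
      have h6 : Real.log 2 ≤ 1 := by
        have := Real.log_two_lt_d9
        linarith
      have h7 : ((n + 1 : ℕ) : ℝ) * Real.log 2 ≤ ((n + 1 : ℕ) : ℝ) * 1 :=
        mul_le_mul_of_nonneg_left h6 (by positivity)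
      have h8 : (1:ℝ) ≤ n := by exact_mod_cast (by omega : 1 ≤ n)
      push_cast at h5 h7
      linarith
    have hlog0 : 0 ≤ Real.log B := Real.log_natCast_nonneg B
    have h9 : (Real.log B / 32) * (Real.log B / 32) ≤
        ((N - K' : ℕ) : ℝ) * ((N - K' : ℕ) : ℝ) := by
      apply mul_self_le_mul_self (by positivity)
      linarith
    calc c / 4096 * (B : ℝ) ^ 2 * Real.log B ^ 2
        = ((Real.log B / 32) * (Real.log B / 32)) * (c / 4 * (B : ℝ) ^ 2) := by ring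
      _ ≤ ((N - K' : ℕ) : ℝ) * ((N - K' : ℕ) : ℝ) * (c / 4 * (B : ℝ) ^ 2) :=
          mul_le_mul_of_nonneg_right h9 (by positivity)

end Pool.Agent.W333.QO.LS
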